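import Pool.Agent.H458.AG.Def

/-!
# Project AG (helper458), part `S_IRR` (helper139): few reducible polynomials in the box
-/

set_option autoImplicit false
set_option linter.all false

open Polynomial IsDedekindDomain NumberField
open scoped Classical

namespace Pool.Agent.H139.AG458

open Pool.Agent.N783.PF (sp rd Ht fF)
open Pool.Agent.N352.PJ (dd)
open Pool.Agent.H458.AG

/-- The fibres of a surjective homomorphism have the same size. -/
theorem fib_card {A A' : Type} [AddCommGroup A] [AddCommGroup A'] (φ : A →+ A')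
    (hφ : Function.Surjective φ) (T : Set A') :
    (φ ⁻¹' T).ncard * Nat.card A' = T.ncard * Nat.card A := by
  choose s hs using hφ
  have e : (φ ⁻¹' T : Set A) × A' ≃ T × A :=
    { toFun := fun x => (⟨φ x.1.1, x.1.2⟩, x.1.1 + s x.2)
      invFun := fun y => (⟨y.2 - s (φ y.2 - y.1.1), by
        show φ (y.2 - s (φ y.2 - y.1.1)) ∈ T
        rw [map_sub, hs, sub_sub_cancel]
        exact y.1.2⟩, φ y.2 - y.1.1)
      left_inv := fun x => by
        have h1 : φ (x.1.1 + s x.2) - φ x.1.1 = x.2 := by rw [map_add, hs, add_sub_cancel_left]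
        refine Prod.ext (Subtype.ext ?_) ?_
        · show x.1.1 + s x.2 - s (φ (x.1.1 + s x.2) - φ x.1.1) = x.1.1
          rw [h1, add_sub_cancel_right]
        · exact h1
      right_inv := fun y => by
        have h1 : φ (y.2 - s (φ y.2 - y.1.1)) = y.1.1 := by rw [map_sub, hs, sub_sub_cancel]
        refine Prod.ext (Subtype.ext ?_) ?_
        · exact h1
        · show y.2 - s (φ y.2 - y.1.1) + s (φ y.2 - y.1.1) = y.2
          rw [sub_add_cancel] }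
  have h1 := Nat.card_congr e
  rw [Nat.card_prod, Nat.card_prod] at h1
  exact h1

section

variable {F : Type} [Field F] [NumberField F]

theorem card_quot {q : ℕ} (hq : q ≠ 0) : Finite (𝓞 F ⧸ sp F q) ∧
    Nat.card (𝓞 F ⧸ sp F q) = q ^ Module.finrank ℚ F := by
  have h1 : sp F q ≠ ⊥ := by
    rw [sp, Ne, Ideal.span_singleton_eq_bot]
    exact_mod_cast hq
  refine ⟨Ideal.finiteQuotientOfFreeOfNeBot _ h1, ?_⟩
  have h2 : Nat.card (𝓞 F ⧸ sp F q) = Ideal.absNorm (sp F q) := by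
    rw [Ideal.absNorm_apply, Submodule.cardQuot_apply]
  rw [h2, sp, Ideal.absNorm_span_natCast, RingOfIntegers.rank]

/-- a prime over `q` -/
theorem exists_over {q : ℕ} (hq : q.Prime) : ∃ 𝔭 : Ideal (𝓞 F), 𝔭.IsMaximal ∧ sp F q ≤ 𝔭 := by
  refine Ideal.exists_le_maximal _ fun h => ?_
  have h1 := (card_quot (F := F) hq.ne_zero).2
  have h2 : Subsingleton (𝓞 F ⧸ sp F q) := Ideal.Quotient.subsingleton_iff.mpr h
  have h3 : Nat.card (𝓞 F ⧸ sp F q) = 1 := Nat.card_unique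
  rw [h3] at h1
  have h4 : 1 < q ^ Module.finrank ℚ F :=
    Nat.one_lt_pow (Module.finrank_pos.ne') hq.one_lt
  omega

/-- the residues of polynomials which are reducible modulo `𝔭` -/
def BR (g q : ℕ) (𝔭 : Ideal (𝓞 F)) : Set (Fin (2 * g) → 𝓞 F ⧸ sp F q) :=
  {r | ∃ f : (𝓞 F)[X], Pol g f ∧ r = mkr g q f ∧ ¬ Irreducible (rd 𝔭 f)}

/-- the coefficients of irreducible polynomials -/
def IC (g : ℕ) (k : Type) [Field k] : Set (Fin (2 * g) → k) :=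
  {v | ∃ p : k[X], (p.Monic ∧ p.natDegree = 2 * g + 1 ∧ p.coeff (2 * g + 1 - 1) = 0 ∧
    Irreducible p) ∧ ∀ j : Fin (2 * g), v j = p.coeff j}

theorem poly_eq {g : ℕ} {k : Type} [Field k] {p p' : k[X]} (h1 : p.Monic)
    (h2 : p.natDegree = 2 * g + 1) (h3 : p.coeff (2 * g) = 0) (h1' : p'.Monic)
    (h2' : p'.natDegree = 2 * g + 1) (h3' : p'.coeff (2 * g) = 0)
    (h : ∀ j : Fin (2 * g), p.coeff j = p'.coeff j) : p = p' := by
  refine Polynomial.ext fun j => ?_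
  rcases lt_trichotomy j (2 * g) with hj | hj | hj
  · exact h ⟨j, hj⟩
  · rw [hj, h3, h3']
  · rcases Nat.lt_or_ge (2 * g + 1) j with h4 | h4
    · rw [coeff_eq_zero_of_natDegree_lt (by rw [h2]; exact h4),
        coeff_eq_zero_of_natDegree_lt (by rw [h2']; exact h4)]
    · have h5 : j = 2 * g + 1 := by omega
      have e1 := h1.coeff_natDegree
      have e2 := h1'.coeff_natDegree
      rw [h2] at e1
      rw [h2'] at e2
      rw [h5, e1, e2]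

theorem ic_card (h : S_IRC) (g : ℕ) (hg : 1 ≤ g) (k : Type) [Field k] [Finite k]
    (hn : ((2 * g + 1).factorial : k) ≠ 0) :
    Nat.card k ^ (2 * g) ≤ 2 * (2 * g + 1) * (IC g k).ncard := by
  have h1 := h k (2 * g + 1) (by omega) hn
  have e : 2 * g + 1 - 1 = 2 * g := by omega
  have h2 : {p : k[X] | p.Monic ∧ p.natDegree = 2 * g + 1 ∧ p.coeff (2 * g + 1 - 1) = 0 ∧
      Irreducible p}.ncard ≤ (IC g k).ncard := by
    refine Set.ncard_le_ncard_of_injOn (fun p => fun j : Fin (2 * g) => p.coeff j) ?_ ?_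
      (Set.toFinite _)
    · intro p hp
      exact ⟨p, hp, fun j => rfl⟩
    · intro p hp p' hp' hh
      rw [e] at hp hp'
      exact poly_eq hp.1 hp.2.1 hp.2.2.1 hp'.1 hp'.2.1 hp'.2.2.1 fun j => congrFun hh j
  rw [e] at h1
  exact h1.trans (Nat.mul_le_mul_left _ h2)

/-- the bound for the residues at one prime -/
theorem br_card (h : S_IRC) (g : ℕ) (hg : 1 ≤ g) {q : ℕ} (hq : q.Prime) (hqn : 2 * g + 1 < q)
    {𝔭 : Ideal (𝓞 F)} (hm : 𝔭.IsMaximal) (hle : sp F q ≤ 𝔭) :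
    (BR g q 𝔭).ncard * (2 * (2 * g + 1)) ≤
      (2 * (2 * g + 1) - 1) * q ^ (2 * g * Module.finrank ℚ F) := by
  have hfinR : Finite (𝓞 F ⧸ sp F q) := (card_quot hq.ne_zero).1
  have hq𝔭 : (q : 𝓞 F) ∈ 𝔭 := hle (Ideal.mem_span_singleton_self _)
  have hbot : 𝔭 ≠ ⊥ := by
    rintro rfl
    rw [Ideal.mem_bot] at hq𝔭
    exact hq.ne_zero (by exact_mod_cast hq𝔭)
  have hfink : Finite (𝓞 F ⧸ 𝔭) := Ideal.finiteQuotientOfFreeOfNeBot 𝔭 hbot
  letI : Field (𝓞 F ⧸ 𝔭) := Ideal.Quotient.field 𝔭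
  have hc : ((q : ℕ) : 𝓞 F ⧸ 𝔭) = 0 := by
    have := Ideal.Quotient.eq_zero_iff_mem.2 hq𝔭
    rwa [map_natCast] at this
  have : Fact q.Prime := ⟨hq⟩
  have hchar : CharP (𝓞 F ⧸ 𝔭) q := (CharP.charP_iff_prime_eq_zero hq).2 hc
  have hn : ((2 * g + 1).factorial : 𝓞 F ⧸ 𝔭) ≠ 0 := by
    intro h4
    rw [CharP.cast_eq_zero_iff (𝓞 F ⧸ 𝔭) q, hq.dvd_factorial] at h4
    omega
  have hI := ic_card h g hg (𝓞 F ⧸ 𝔭) hn
  let φ : (Fin (2 * g) → 𝓞 F ⧸ sp F q) →+ (Fin (2 * g) → 𝓞 F ⧸ 𝔭) :=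
    { toFun := fun r j => Ideal.Quotient.factor hle (r j)
      map_zero' := by funext j; exact map_zero _
      map_add' := fun r r' => by funext j; exact map_add _ _ _ }
  have hφ : Function.Surjective φ := by
    intro v
    choose r hr using fun j => Ideal.Quotient.factor_surjective hle (v j)
    exact ⟨r, funext hr⟩
  have h1 := fib_card φ hφ (IC g (𝓞 F ⧸ 𝔭))ᶜ
  have h2 : BR g q 𝔭 ⊆ φ ⁻¹' (IC g (𝓞 F ⧸ 𝔭))ᶜ := by
    rintro r ⟨f, hf, rfl, hirr⟩ ⟨p, ⟨p1, p2, p3, p4⟩, hp⟩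
    apply hirr
    have e : 2 * g + 1 - 1 = 2 * g := by omega
    rw [e] at p3
    have h3 : rd 𝔭 f = p := by
      refine poly_eq (hf.mon.map _) ?_ ?_ p1 p2 p3 fun j => ?_
      · rw [hf.mon.natDegree_map, hf.deg]
      · rw [coeff_map, hf.tr, map_zero]
      · rw [← hp j, coeff_map]
        rfl
    rw [h3]
    exact p4
  have h3 : (BR g q 𝔭).ncard ≤ (φ ⁻¹' (IC g (𝓞 F ⧸ 𝔭))ᶜ).ncard :=
    Set.ncard_le_ncard h2 (Set.toFinite _)
  have h4 : (IC g (𝓞 F ⧸ 𝔭)).ncard + (IC g (𝓞 F ⧸ 𝔭))ᶜ.ncard = Nat.card (Fin (2 * g) → 𝓞 F ⧸ 𝔭) :=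
    Set.ncard_add_ncard_compl _
  have h5 : Nat.card (Fin (2 * g) → 𝓞 F ⧸ 𝔭) = Nat.card (𝓞 F ⧸ 𝔭) ^ (2 * g) := by
    rw [Nat.card_fun, Nat.card_eq_fintype_card (α := Fin (2 * g)), Fintype.card_fin]
  have h6 : Nat.card (Fin (2 * g) → 𝓞 F ⧸ sp F q) = q ^ (2 * g * Module.finrank ℚ F) := by
    rw [Nat.card_fun, Nat.card_eq_fintype_card (α := Fin (2 * g)), Fintype.card_fin,
      (card_quot hq.ne_zero).2, ← pow_mul, mul_comm]
  rw [h6] at h1
  rw [h5] at h1 h4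
  have hkpos : 0 < Nat.card (𝓞 F ⧸ 𝔭) ^ (2 * g) := pow_pos Nat.card_pos _
  obtain ⟨K, hK⟩ : ∃ K : ℕ, K = Nat.card (𝓞 F ⧸ 𝔭) ^ (2 * g) := ⟨_, rfl⟩
  obtain ⟨Q, hQ⟩ : ∃ Q : ℕ, Q = q ^ (2 * g * Module.finrank ℚ F) := ⟨_, rfl⟩
  obtain ⟨n, hn'⟩ : ∃ n : ℕ, n = 2 * (2 * g + 1) := ⟨_, rfl⟩
  rw [← hK] at h1 h4 hI hkpos
  rw [← hQ] at h1 ⊢
  rw [← hn'] at hI ⊢
  have hn1 : 1 ≤ n := by omega
  obtain ⟨l, rfl⟩ : ∃ l, n = l + 1 := ⟨n - 1, by omega⟩
  rw [Nat.add_sub_cancel]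
  have h7 : (IC g (𝓞 F ⧸ 𝔭))ᶜ.ncard * (l + 1) ≤ l * K := by nlinarith
  refine Nat.le_of_mul_le_mul_right ?_ hkpos
  calc (BR g q 𝔭).ncard * (l + 1) * K = (BR g q 𝔭).ncard * K * (l + 1) := by ring
    _ ≤ (φ ⁻¹' (IC g (𝓞 F ⧸ 𝔭))ᶜ).ncard * K * (l + 1) :=
        Nat.mul_le_mul_right _ (Nat.mul_le_mul_right _ h3)
    _ = (IC g (𝓞 F ⧸ 𝔭))ᶜ.ncard * (l + 1) * Q := by rw [h1]; ring
    _ ≤ l * K * Q := Nat.mul_le_mul_right _ h7
    _ = l * Q * K := by ring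

/-- a polynomial which is irreducible modulo `𝔭` is irreducible -/
theorem irr_of_rd {𝔭 : Ideal (𝓞 F)} (hm : 𝔭.IsMaximal) {f : (𝓞 F)[X]} (hf : f.Monic)
    (h : Irreducible (rd 𝔭 f)) : Irreducible (fF f) := by
  have h1 : Irreducible f := by
    have : IsDomain (𝓞 F ⧸ 𝔭) := (Ideal.Quotient.isDomain_iff_prime 𝔭).mpr hm.isPrime
    exact Polynomial.Monic.irreducible_of_irreducible_map (Ideal.Quotient.mk 𝔭) f hf h
  exact (Polynomial.Monic.irreducible_iff_irreducible_map_fraction_map hf).mp h1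

end

theorem irr (h1 : Pool.Agent.H458.AG.S_FIB) (h2 : Pool.Agent.H458.AG.S_IRC) :
    Pool.Agent.H458.AG.S_IRR := by
  intro F _ _ g hg ε hε
  obtain ⟨C, hC, hfib⟩ := h1 F g hg
  have hC0 : (0 : ℝ) < C := by exact_mod_cast hC
  obtain ⟨n, hn⟩ : ∃ n : ℕ, n = 2 * (2 * g + 1) := ⟨_, rfl⟩
  have hn1 : 1 ≤ n := by omega
  have hnR : (0 : ℝ) < n := by exact_mod_cast hn1
  obtain ⟨c, hc⟩ : ∃ c : ℝ, c = ((n - 1 : ℕ) : ℝ) / n := ⟨_, rfl⟩
  have hc0 : 0 ≤ c := by rw [hc]; positivity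
  have hc1 : c < 1 := by
    rw [hc, div_lt_one hnR]
    exact_mod_cast Nat.sub_lt hn1 one_pos
  obtain ⟨m, hm⟩ := exists_pow_lt_of_lt_one (show 0 < ε / C by positivity) hc1
  obtain ⟨S, hS, hScard⟩ : ∃ S : Finset ℕ, (∀ q ∈ S, q.Prime ∧ 2 * g + 1 < q) ∧ S.card = m := by
    have hinf : {q : ℕ | q.Prime ∧ 2 * g + 1 < q}.Infinite := by
      rw [Set.infinite_iff_exists_gt]
      intro a
      obtain ⟨p, hp1, hp2⟩ := Nat.exists_infinite_primes (a + (2 * g + 1) + 1)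
      exact ⟨p, ⟨hp2, by omega⟩, by omega⟩
    obtain ⟨S, hS1, hS2⟩ := hinf.exists_subset_card_eq m
    exact ⟨S, fun q hq => hS1 hq, hS2⟩
  choose! 𝔭 h𝔭m h𝔭l using fun q (hq : q ∈ S) => exists_over (F := F) (hS q hq).1
  refine ⟨C * ∏ q ∈ S, q, fun B hB => ?_⟩
  obtain ⟨D, hD⟩ : ∃ D : ℕ, D = Module.finrank ℚ F := ⟨_, rfl⟩
  rw [← hD]
  have hppos : 0 < ∏ q ∈ S, q := Finset.prod_pos fun q hq => (hS q hq).1.pos
  have hBC : C ≤ B := by
    refine le_trans ?_ hB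
    exact Nat.le_mul_of_pos_right _ hppos
  obtain ⟨Bd, hBd⟩ : ∃ Bd : Set (𝓞 F)[X], Bd = {f : (𝓞 F)[X] | Ht g B f ∧
    ¬ Irreducible (fF f)} := ⟨_, rfl⟩
  rw [← hBd]
  have hHfin : {f : (𝓞 F)[X] | Ht g B f}.Finite := by
    have h3 := (hfib ∅ (fun q => 0) B (fun q hq => absurd hq (Finset.notMem_empty q))
      (by rw [Finset.prod_empty, mul_one]; exact hBC)).1
    refine h3.subset fun f hf => ⟨hf, fun q hq => absurd hq (Finset.notMem_empty q)⟩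
  have hBfin : Bd.Finite := hHfin.subset (by rw [hBd]; exact fun f hf => hf.1)
  have hfin : ∀ i : S, Finite (𝓞 F ⧸ sp F (i : ℕ)) := fun i => (card_quot (hS i i.2).1.ne_zero).1
  let R : S → Type := fun i => Fin (2 * g) → 𝓞 F ⧸ sp F (i : ℕ)
  have hfinR : ∀ i : S, Finite (R i) := fun i => by
    have := hfin i
    exact inferInstanceAs (Finite (Fin (2 * g) → 𝓞 F ⧸ sp F (i : ℕ)))
  let hft : ∀ i : S, Fintype (R i) := fun i => Fintype.ofFinite (R i)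
  let Gd : ∀ i : S, Finset (R i) := fun i =>
    Finset.univ.filter (fun r => r ∈ BR (F := F) g (i : ℕ) (𝔭 i))
  have hG : ∀ i : S, (Gd i).card = (BR (F := F) g (i : ℕ) (𝔭 i)).ncard := by
    intro i
    have h3 : (BR (F := F) g (i : ℕ) (𝔭 i)) = ((Gd i : Finset (R i)) : Set (R i)) := by
      ext r
      simp only [Gd, Finset.coe_filter, Finset.mem_univ, true_and]
      rfl
    rw [h3, Set.ncard_coe_finset]
  obtain ⟨P, hP⟩ : ∃ P : ℕ, P = (∏ q ∈ S, q) ^ (2 * g * D) := ⟨_, rfl⟩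
  have hPpos : 0 < P := by rw [hP]; exact pow_pos hppos _
  have hprod : (Fintype.piFinset Gd).card * n ^ m ≤ (n - 1) ^ m * P := by
    rw [Fintype.card_piFinset]
    have h3 : ∀ i : S, (Gd i).card * n ≤ (n - 1) * (i : ℕ) ^ (2 * g * D) := by
      intro i
      rw [hG, hn, hD]
      exact br_card h2 g hg (hS i i.2).1 (hS i i.2).2 (h𝔭m i i.2) (h𝔭l i i.2)
    have h4 := Finset.prod_le_prod' fun (i : S) (_ : i ∈ Finset.univ) => h3 i
    rw [Finset.prod_mul_distrib, Finset.prod_mul_distrib, Finset.prod_const, Finset.prod_const,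
      Finset.card_univ, Fintype.card_coe, hScard] at h4
    refine h4.trans (le_of_eq ?_)
    congr 1
    rw [hP, ← Finset.prod_pow]
    exact Finset.prod_coe_sort S (fun q => q ^ (2 * g * D))
  let Res : (𝓞 F)[X] → ∀ i : S, R i := fun f i => mkr g (i : ℕ) f
  have hres : ∀ f ∈ Bd, Res f ∈ Fintype.piFinset Gd := by
    intro f hf
    rw [hBd] at hf
    rw [Fintype.mem_piFinset]
    intro i
    simp only [Gd, Finset.mem_filter, Finset.mem_univ, true_and]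
    refine ⟨f, pol_of_ht hf.1, rfl, fun h3 => hf.2 ?_⟩
    exact irr_of_rd (h𝔭m i i.2) hf.1.mon h3
  have hfibre : ∀ ρ : ∀ i : S, R i,
      {f ∈ hBfin.toFinset | Res f = ρ}.card * P ≤ C * B ^ (D * dd g) := by
    intro ρ
    obtain ⟨r₀, hr₀⟩ : ∃ r₀ : (∀ q : ℕ, Fin (2 * g) → 𝓞 F ⧸ sp F q), ∀ (q : ℕ) (hq : q ∈ S),
        r₀ q = ρ ⟨q, hq⟩ :=
      ⟨fun q => if h : q ∈ S then ρ ⟨q, h⟩ else 0, fun q hq => dif_pos hq⟩
    have h4 := hfib S r₀ B (fun q hq => (hS q hq).1) hB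
    rw [← hD] at h4
    obtain ⟨Fb, hFb⟩ : ∃ Fb : Set (𝓞 F)[X], Fb = {f : (𝓞 F)[X] | Ht g B f ∧ ∀ q ∈ S,
      mkr g q f = r₀ q} := ⟨_, rfl⟩
    rw [← hFb] at h4
    have h5 : {f ∈ hBfin.toFinset | Res f = ρ}.card ≤ Fb.ncard := by
      rw [Set.ncard_eq_toFinset_card _ h4.1]
      refine Finset.card_le_card fun f hf => ?_
      rw [Finset.mem_filter, Set.Finite.mem_toFinset] at hf
      rw [Set.Finite.mem_toFinset, hFb]
      have h7 := hf.1
      rw [hBd] at h7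
      refine ⟨h7.1, fun q hq => ?_⟩
      have h8 := congrFun hf.2 ⟨q, hq⟩
      rw [hr₀ q hq]
      exact h8
    refine le_trans (Nat.mul_le_mul_right _ h5) ?_
    rw [hP]
    exact h4.2
  have hcount : Bd.ncard * P ≤ (Fintype.piFinset Gd).card * (C * B ^ (D * dd g)) := by
    rw [Set.ncard_eq_toFinset_card _ hBfin]
    rw [Finset.card_eq_sum_card_fiberwise (f := Res) (t := Fintype.piFinset Gd) (fun f hf => by
      exact hres f ((Set.Finite.mem_toFinset hBfin).1 hf))]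
    rw [Finset.sum_mul]
    refine (Finset.sum_le_card_nsmul _ _ _ fun ρ _ => hfibre ρ).trans ?_
    rw [smul_eq_mul]
  have hcount2 : Bd.ncard * n ^ m ≤ (n - 1) ^ m * (C * B ^ (D * dd g)) := by
    refine Nat.le_of_mul_le_mul_right ?_ hPpos
    calc Bd.ncard * n ^ m * P = Bd.ncard * P * n ^ m := by ring
      _ ≤ (Fintype.piFinset Gd).card * (C * B ^ (D * dd g)) * n ^ m :=
          Nat.mul_le_mul_right _ hcount
      _ = (Fintype.piFinset Gd).card * n ^ m * (C * B ^ (D * dd g)) := by ring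
      _ ≤ (n - 1) ^ m * P * (C * B ^ (D * dd g)) := Nat.mul_le_mul_right _ hprod
      _ = (n - 1) ^ m * (C * B ^ (D * dd g)) * P := by ring
  have hcount3 : (Bd.ncard : ℝ) * (n : ℝ) ^ m ≤
      ((n - 1 : ℕ) : ℝ) ^ m * (C * (B : ℝ) ^ (D * dd g)) := by exact_mod_cast hcount2
  have hnm : (0 : ℝ) < (n : ℝ) ^ m := by positivity
  have h10 : (Bd.ncard : ℝ) ≤ c ^ m * (C * (B : ℝ) ^ (D * dd g)) := by
    rw [hc, div_pow, div_mul_eq_mul_div, le_div_iff₀ hnm]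
    exact hcount3
  refine h10.trans ?_
  have h11 : c ^ m * C ≤ ε := by
    rw [lt_div_iff₀ hC0] at hm
    exact hm.le
  rw [← mul_assoc]
  exact mul_le_mul_of_nonneg_right h11 (by positivity)

end Pool.Agent.H139.AG458
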